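import Pool.Agent.Helper18.SU.Goals2

/-! # Median orders -/

set_option autoImplicit false

namespace Pool.Agent.Helper90.SU

open Pool.Agent.Helper18.SU

section

variable {V : Type} (A : V → V → Prop) (d : Bool)

open Classical in
/-- The number of entries of `l` which are neighbours of `x` in direction `d`. -/
noncomputable def ct (d : Bool) (x : V) (l : List V) : ℕ := l.countP fun y => decide (Arc A d x y)

/-- The number of forward arcs. -/
noncomputable def fw : List V → ℕ
  | [] => 0
  | x :: l => ct A d x l + fw l

/-- The number of arcs from `l` to `l'`. -/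
noncomputable def cr (l l' : List V) : ℕ := (l.map fun x => ct A d x l').sum

theorem ct_append (x : V) (l l' : List V) : ct A d x (l ++ l') = ct A d x l + ct A d x l' := by
  simp [ct, List.countP_append]

theorem ct_perm (x : V) {l l' : List V} (h : l.Perm l') : ct A d x l = ct A d x l' := by
  unfold ct
  exact h.countP_eq _

theorem fw_append (l l' : List V) : fw A d (l ++ l') = fw A d l + fw A d l' + cr A d l l' := by
  induction l with
  | nil => simp [fw, cr]
  | cons x l ih =>
    simp only [List.cons_append, fw, ih, ct_append, cr, List.map_cons, List.sum_cons]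
    omega

theorem cr_perm (l : List V) {l' l'' : List V} (h : l'.Perm l'') :
    cr A d l l' = cr A d l l'' := by
  unfold cr
  congr 1
  refine List.map_congr_left fun x _ => ct_perm A d x h

theorem arc_not (u v : V) : Arc A (!d) u v ↔ Arc A d v u := by
  cases d <;> exact Iff.rfl

open Classical in
theorem cr_cons (l l' : List V) (x : V) :
    cr A d l (x :: l') = cr A d l l' + ct A (!d) x l := by
  induction l with
  | nil => simp [cr, ct]
  | cons y l ih =>
    have h1 : cr A d (y :: l) (x :: l') = ct A d y (x :: l') + cr A d l (x :: l') := by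
      simp [cr]
    have h2 : cr A d (y :: l) l' = ct A d y l' + cr A d l l' := by
      simp [cr]
    rw [h1, h2, ih]
    have h3 : ct A d y (x :: l') = ct A d y l' + ct A d y [x] := by
      rw [← ct_append]
      exact ct_perm A d y (List.perm_append_comm (l₁ := [x]) (l₂ := l'))
    have h4 : ct A (!d) x (y :: l) = ct A (!d) x l + ct A (!d) x [y] := by
      rw [← ct_append]
      exact ct_perm A (!d) x (List.perm_append_comm (l₁ := [y]) (l₂ := l))
    have h5 : ct A d y [x] = ct A (!d) x [y] := by
      unfold ct
      rw [List.countP_singleton, List.countP_singleton]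
      have : decide (Arc A d y x) = decide (Arc A (!d) x y) := by
        rw [decide_eq_decide, arc_not]
      rw [this]
    rw [h3, h4, h5]
    omega

theorem fw_move (l1 l2 l3 : List V) (x : V) :
    fw A d (l1 ++ (l2 ++ x :: l3)) + ct A d x l2 =
      fw A d (l1 ++ x :: (l2 ++ l3)) + ct A (!d) x l2 := by
  have h1 : cr A d l1 (l2 ++ x :: l3) = cr A d l1 (x :: (l2 ++ l3)) :=
    cr_perm A d l1 List.perm_middle
  rw [fw_append, fw_append A d l1 (x :: (l2 ++ l3)), h1, fw_append A d l2, cr_cons]
  simp only [fw, fw_append, ct_append]
  omega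

open Classical in
theorem ct_nb [inst : DecidableEq V] (x : V) {l : List V} (hl : l.Nodup) :
    ct A d x l = (nb A d (@List.toFinset V inst l) x).card := by
  unfold ct nb
  rw [List.countP_eq_length_filter, ← List.toFinset_card_of_nodup (hl.filter _)]
  congr 1
  ext y
  simp

end

theorem LMO : LMO_stmt := by
  intro V _ A _ d X
  obtain ⟨l, hl, hmax⟩ := Finset.exists_max_image (X.toList.permutations.toFinset) (fw A d)
    ⟨X.toList, by simp⟩
  rw [List.mem_toFinset, List.mem_permutations] at hl
  refine ⟨l, hl.nodup_iff.2 X.nodup_toList, ?_, ?_⟩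
  · rw [List.toFinset_eq_of_perm _ _ hl, Finset.toList_toFinset]
  · intro l1 l2 l3 x hx
    subst hx
    have hn : (l1 ++ x :: (l2 ++ l3)).Nodup := hl.nodup_iff.2 X.nodup_toList
    have hn2 : l2.Nodup := by
      have h1 := (List.nodup_append.1 hn).2.1
      have h2 := (List.nodup_cons.1 h1).2
      exact (List.nodup_append.1 h2).1
    have hp : (l1 ++ (l2 ++ x :: l3)).Perm X.toList := by
      refine List.Perm.trans ?_ hl
      exact List.Perm.append_left l1 List.perm_middle
    have h3 := hmax (l1 ++ (l2 ++ x :: l3)) (by
      rw [List.mem_toFinset, List.mem_permutations]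
      exact hp)
    have h4 := fw_move A d l1 l2 l3 x
    have h5 : ct A (!d) x l2 ≤ ct A d x l2 := by omega
    rwa [ct_nb A (!d) x hn2, ct_nb A d x hn2] at h5

end Pool.Agent.Helper90.SU
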